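import Pool.Agent.H458.AG.Def

/-!
# Lattices at the bad primes
-/

set_option autoImplicit false
set_option linter.all false

open Polynomial IsDedekindDomain Matrix NumberField WithZero
open scoped Classical

namespace Pool.Agent.H383.AG458

open Pool.Agent.N352.PJ (Mt)
open Pool.Agent.N783.PF (IsGen fF)
open Pool.Agent.N783.PQ (LocIm)
open Pool.Agent.N874.JM (LocF)
open Pool.Agent.H459.UT (LL ev_hom)
open Pool.Agent.H458.AG

section coord

variable {F L k A : Type} [Field F] [Field L] [Algebra F L] [Field k] [CommRing A] [Algebra k A]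

theorem repr_map {n : ℕ} (b : Module.Basis (Fin n) F L) (b' : Module.Basis (Fin n) k A)
    (j : F →+* k) (φ : L →+* A) (h1 : ∀ a, φ (algebraMap F L a) = algebraMap k A (j a))
    (h2 : ∀ i, φ (b i) = b' i) (y : L) (i : Fin n) : b'.repr (φ y) i = j (b.repr y i) := by
  have e1 : φ y = ∑ l, j (b.repr y l) • b' l := by
    conv_lhs => rw [← b.sum_repr y]
    rw [map_sum]
    refine Finset.sum_congr rfl fun l _ => ?_
    rw [Algebra.smul_def, map_mul, h1, h2, Algebra.smul_def]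
  rw [e1]
  have e2 := b'.repr_sum_self (fun l => j (b.repr y l))
  exact congrFun e2 i

theorem norm_map {n : ℕ} (b : Module.Basis (Fin n) F L) (b' : Module.Basis (Fin n) k A)
    (j : F →+* k) (φ : L →+* A) (h1 : ∀ a, φ (algebraMap F L a) = algebraMap k A (j a))
    (h2 : ∀ i, φ (b i) = b' i) (y : L) : Algebra.norm k (φ y) = j (Algebra.norm F y) := by
  rw [Algebra.norm_eq_matrix_det b', Algebra.norm_eq_matrix_det b, RingHom.map_det]
  congr 1
  ext i l
  rw [Algebra.leftMulMatrix_eq_repr_mul, RingHom.mapMatrix_apply, Matrix.map_apply,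
    Algebra.leftMulMatrix_eq_repr_mul, ← h2, ← map_mul]
  exact repr_map b b' j φ h1 h2 _ i

end coord

section pow

variable {k : Type} [Field k]

/-- the powers of the root -/
noncomputable def pb {f : k[X]} (hf : f.Monic) {g : ℕ} (hd : f.natDegree = 2 * g + 1) :
    Module.Basis (Fin (2 * g + 1)) k (AdjoinRoot f) :=
  (AdjoinRoot.powerBasis' hf).basis.reindex (finCongr hd)

theorem pb_apply {f : k[X]} (hf : f.Monic) {g : ℕ} (hd : f.natDegree = 2 * g + 1)
    (i : Fin (2 * g + 1)) : pb hf hd i = AdjoinRoot.root f ^ (i : ℕ) := by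
  unfold pb
  rw [Module.Basis.reindex_apply, PowerBasis.basis_eq_pow]
  rfl

theorem pb_repr {f : k[X]} (hf : f.Monic) {g : ℕ} (hd : f.natDegree = 2 * g + 1)
    (z : AdjoinRoot f) : (pb hf hd).repr z (Fin.last (2 * g)) = tp hf g z := by
  unfold pb
  rw [Module.Basis.repr_reindex_apply]
  rfl

/-- the powers of a multiple of the root -/
noncomputable def pc {f : k[X]} (hf : f.Monic) {g : ℕ} (hd : f.natDegree = 2 * g + 1) {c : k}
    (hc : c ≠ 0) : Module.Basis (Fin (2 * g + 1)) k (AdjoinRoot f) :=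
  (pb hf hd).isUnitSMul (w := fun i => c ^ (i : ℕ)) fun i => (pow_ne_zero _ hc).isUnit

theorem pc_apply {f : k[X]} (hf : f.Monic) {g : ℕ} (hd : f.natDegree = 2 * g + 1) {c : k}
    (hc : c ≠ 0) (i : Fin (2 * g + 1)) :
    pc hf hd hc i = (algebraMap k _ c * AdjoinRoot.root f) ^ (i : ℕ) := by
  unfold pc
  rw [Module.Basis.isUnitSMul_apply, pb_apply, Algebra.smul_def, mul_pow, map_pow]

theorem pc_repr {f : k[X]} (hf : f.Monic) {g : ℕ} (hd : f.natDegree = 2 * g + 1) {c : k}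
    (hc : c ≠ 0) (z : AdjoinRoot f) :
    c ^ (2 * g) * (pc hf hd hc).repr z (Fin.last (2 * g)) = tp hf g z := by
  unfold pc
  rw [Module.Basis.repr_isUnitSMul, pb_repr hf hd, Units.smul_def, Units.val_inv_eq_inv_val,
    IsUnit.unit_spec, smul_eq_mul, Fin.val_last]
  exact mul_inv_cancel_left₀ (pow_ne_zero _ hc) _

theorem mk_comp (f p : k[X]) (c : k) : AdjoinRoot.mk f (p.comp (C c * X)) =
    p.eval₂ (algebraMap k (AdjoinRoot f)) (algebraMap k _ c * AdjoinRoot.root f) := by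
  rw [← AdjoinRoot.aeval_eq, aeval_comp, map_mul, aeval_C, aeval_X, aeval_def]

theorem cop_of_unit {f p : k[X]} (h : IsUnit (AdjoinRoot.mk f p)) : IsCoprime p f := by
  obtain ⟨b, hb⟩ := h.exists_right_inv
  obtain ⟨q, rfl⟩ := AdjoinRoot.mk_surjective b
  have h1 : AdjoinRoot.mk f (p * q - 1) = 0 := by
    rw [map_sub, map_mul, map_one, hb, sub_self]
  obtain ⟨r, hr⟩ := AdjoinRoot.mk_eq_zero.1 h1
  exact ⟨q, -r, by linear_combination hr⟩

end pow

theorem lt_one_le {x : WithZero (Multiplicative ℤ)} (h : x < 1) : x ≤ WithZero.exp (-1 : ℤ) := by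
  by_cases hx : x = 0
  · rw [hx]
    exact zero_le
  · obtain ⟨n, rfl⟩ : ∃ n : ℤ, x = WithZero.exp n := ⟨WithZero.log x, (WithZero.exp_log hx).symm⟩
    rw [← WithZero.exp_zero, WithZero.exp_lt_exp] at h
    rw [WithZero.exp_le_exp]
    omega

theorem ll (h1 : Pool.Agent.H458.AG.S_LAT) (h2 : Pool.Agent.H458.AG.S_LSC) :
    Pool.Agent.H458.AG.S_LL := by
  intro F L _ _ _ _ _ g d f θ w hg hmon hdeg hirr hd hdw hG h h0 hsq hl
  haveI := Pool.Agent.H459.UT.charzero_cpt w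
  obtain ⟨π, hπ⟩ := w.valuation_exists_uniformizer F
  obtain ⟨j, hj⟩ : ∃ j : F →+* w.adicCompletion F, j = algebraMap F _ := ⟨_, rfl⟩
  obtain ⟨v, hv⟩ : ∃ v : Valuation (w.adicCompletion F) (WithZero (Multiplicative ℤ)),
      v = Valued.v := ⟨_, rfl⟩
  have hvx : ∀ x : F, v (j x) = w.valuation F x := by
    intro x
    rw [hv, hj, Pool.Agent.N704.PP.vx]
  -- the polynomial
  obtain ⟨f₁, hf₁⟩ : ∃ f₁, f₁ = (fF f).map j := ⟨_, rfl⟩
  have hmonF : (fF f).Monic := hmon.map _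
  have hmon1 : f₁.Monic := by rw [hf₁]; exact hmonF.map _
  have hdegF : (fF f).natDegree = 2 * g + 1 := by
    rw [← hdeg]
    exact hmon.natDegree_map _
  have hdeg1 : f₁.natDegree = 2 * g + 1 := by
    rw [hf₁, hmonF.natDegree_map, hdegF]
  have hsqf : Squarefree f₁ := by
    rw [hf₁]
    exact (hirr.separable.map).squarefree
  have hint : ∀ i, v (f₁.coeff i) ≤ 1 := by
    intro i
    have e : (fF f).coeff i = algebraMap (𝓞 F) F (f.coeff i) := coeff_map _ _
    rw [hf₁, coeff_map, hvx, e]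
    exact w.valuation_le_one _
  -- the constant
  obtain ⟨e, he⟩ : ∃ e : w.adicCompletion F, e = 2 * d := ⟨_, rfl⟩
  have hd0 : (d : w.adicCompletion F) ≠ 0 := Nat.cast_ne_zero.2 hd.ne'
  have he0 : e ≠ 0 := by
    rw [he]
    exact mul_ne_zero two_ne_zero hd0
  obtain ⟨c, hc⟩ : ∃ c : w.adicCompletion F, c = e ^ 2 := ⟨_, rfl⟩
  have hc0 : c ≠ 0 := by rw [hc]; exact pow_ne_zero 2 he0
  obtain ⟨c₀, hc₀⟩ : ∃ c₀ : 𝓞 F, c₀ = (((2 * d) ^ 2 : ℕ) : 𝓞 F) := ⟨_, rfl⟩
  obtain ⟨c₁, hc₁⟩ : ∃ c₁ : F, c₁ = algebraMap (𝓞 F) F c₀ := ⟨_, rfl⟩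
  have hjc : j c₁ = c := by
    rw [hc₁, hc₀, map_natCast, map_natCast, hc, he]
    push_cast
    ring
  have hcv : v c ≤ v (4 * j π) := by
    have e1 : c = 4 * ((d : w.adicCompletion F) * d) := by rw [hc, he]; ring
    have e2 : (d : w.adicCompletion F) = j (algebraMap (𝓞 F) F (d : 𝓞 F)) := by
      rw [map_natCast, map_natCast]
    have e3 : v (d : w.adicCompletion F) < 1 := by
      rw [e2, hvx]
      exact (w.valuation_lt_one_iff_mem (K := F) _).2 hdw
    have e4 : v (d : w.adicCompletion F) ≤ v (j π) := by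
      rw [hvx, hπ]
      exact lt_one_le e3
    have e5 : v (4 * j π) = v 4 * v (j π) := map_mul v _ _
    have e6 : v c = v 4 * (v (d : w.adicCompletion F) * v (d : w.adicCompletion F)) := by
      rw [e1, map_mul, map_mul]
    rw [e5, e6]
    exact mul_le_mul' le_rfl ((mul_le_of_le_one_left' e3.le).trans e4)
  rw [← hc₀] at hl
  have hG' : IsGen g (f.scaleRoots c₀) θ := by rw [hc₀]; exact hG
  have hfF : fF (f.scaleRoots c₀) = (fF f).scaleRoots c₁ := by
    rw [hc₁]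
    refine map_scaleRoots f c₀ (algebraMap (𝓞 F) F) ?_
    rw [hmon.leadingCoeff, map_one]
    exact one_ne_zero
  have hmap : (fF (f.scaleRoots c₀)).map j = f₁.scaleRoots (e ^ 2) := by
    rw [hfF, map_scaleRoots _ _ _ (by
      rw [hmonF.leadingCoeff, map_one]
      exact one_ne_zero), hjc, hf₁, hc]
  -- the condition
  have hl' : LocIm (w.adicCompletion F) (f₁.scaleRoots (e ^ 2)) (h.map j) := by
    rw [← hmap, hj]
    exact hl
  have hl1 := h2 _ f₁ (h.map j) e he0 hmon1 (by rw [hdeg1]; exact ⟨g, rfl⟩) hl'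
  rw [← hc] at hl1
  -- the map
  obtain ⟨φ, p1, p2, p3⟩ := ev_hom hG' ((algebraMap (w.adicCompletion F)
      (AdjoinRoot f₁)).comp j) (algebraMap _ _ c * AdjoinRoot.root f₁) (by
    have h5 : (fF f).eval₂ ((algebraMap (w.adicCompletion F) (AdjoinRoot f₁)).comp j)
        (AdjoinRoot.root f₁) = 0 := by
      have h6 := AdjoinRoot.eval₂_root f₁
      have h7 : ∀ (R : Type) [CommRing R] (ι : w.adicCompletion F →+* R) (ρ : R),
          f₁.eval₂ ι ρ = 0 → (fF f).eval₂ (ι.comp j) ρ = 0 := by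
        intro R _ ι ρ h
        rw [hf₁, eval₂_map] at h
        exact h
      exact h7 _ _ _ h6
    have h8 := scaleRoots_eval₂_eq_zero (s := c₁) _ h5
    rw [RingHom.comp_apply, hjc] at h8
    rw [hfF]
    exact h8)
  have p1' : ∀ a, φ (algebraMap F L a) = algebraMap (w.adicCompletion F) (AdjoinRoot f₁) (j a) := p1
  obtain ⟨hh, hhh⟩ : ∃ hh, hh = (h.map j).comp (C c * X) := ⟨_, rfl⟩
  have p3' : φ (aeval θ h) = AdjoinRoot.mk f₁ hh := by
    rw [p3, hhh, mk_comp, eval₂_map]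
  rw [← hhh] at hl1
  have hunit : IsUnit (AdjoinRoot.mk f₁ hh) := by
    rw [← p3']
    exact (IsUnit.mk0 _ h0).map φ
  have hcop : IsCoprime hh f₁ := cop_of_unit hunit
  -- the bases
  have hb : ∀ i, φ (hG.basis i) = pc hmon1 hdeg1 hc0 i := by
    intro i
    rw [hG.basis_apply, pc_apply, map_pow, p2]
  have hnorm : IsSquare (Algebra.norm (w.adicCompletion F) (AdjoinRoot.mk f₁ hh)) := by
    rw [← p3', norm_map hG.basis (pc hmon1 hdeg1 hc0) j φ p1' hb]
    exact hsq.map j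
  have htop : ∀ x, j (hG.top x) = (c ^ (2 * g))⁻¹ * tp hmon1 g (φ x) := by
    intro x
    rw [← pc_repr hmon1 hdeg1 hc0, inv_mul_cancel_left₀ (pow_ne_zero _ hc0),
      repr_map hG.basis (pc hmon1 hdeg1 hc0) j φ p1' hb]
    rfl
  obtain ⟨Λ, l1, l2⟩ := h1 (w.adicCompletion F) v (j π) (by rw [hvx, hπ]) g f₁ hmon1 hg hdeg1 hsqf
    hint hh hcop hl1 hnorm c hcv
  obtain ⟨α, hα⟩ : ∃ α, α = aeval θ h := ⟨_, rfl⟩
  rw [← hα] at h0 p3' ⊢
  refine ⟨fun x => Λ ((c ^ g)⁻¹ • φ (x / α)), ?_, ?_, ?_, ?_⟩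
  · intro x y
    beta_reduce
    rw [add_div, map_add, smul_add, map_add]
  · intro a x
    beta_reduce
    rw [mul_div_assoc, map_mul, p1', ← Algebra.smul_def, smul_comm, map_smul, hj]
  · intro x y
    beta_reduce
    rw [← l1]
    refine (congrArg (fun ι : F →+* w.adicCompletion F => ι (hG.top (x * y / α)))
      hj).symm.trans ((htop _).trans ?_)
    have e1 : φ (x * y / α) = φ (x / α) * φ (y / α) * AdjoinRoot.mk f₁ hh := by
      rw [← p3', ← map_mul, ← map_mul]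
      congr 1
      field_simp
    have e2 : ((c ^ g)⁻¹ • φ (x / α)) * ((c ^ g)⁻¹ • φ (y / α)) * AdjoinRoot.mk f₁ hh =
        (c ^ (2 * g))⁻¹ • φ (x * y / α) := by
      rw [e1, smul_mul_smul_comm, smul_mul_assoc]
      congr 1
      rw [← mul_inv, ← pow_add, two_mul]
    rw [e2, map_smul, smul_eq_mul]
  · intro x hx i
    beta_reduce at hx ⊢
    have e1 : (c ^ g)⁻¹ • φ (θ * x / α) = c • (AdjoinRoot.root f₁ * ((c ^ g)⁻¹ • φ (x / α))) := by
      rw [mul_div_assoc, map_mul, p2, mul_smul_comm, smul_comm c, Algebra.smul_def c, mul_assoc]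
    rw [e1, ← hv]
    refine l2 _ (fun i => ?_) i
    rw [hv]
    exact hx i

end Pool.Agent.H383.AG458
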